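import Pool.Agent.Helper92.PW.St

/-!
Project PW (MP_ad0dc2_nt), module LOC: local geometry near the Fermat cubic (real inequalities).
-/

set_option autoImplicit false

namespace Pool.Agent.Helper72.PW

open Pool.Agent.Helper92.PW

theorem hLOC : StLOC := by
  intro β x y t u e hβ hβ1 hx1 hx2 hy1 hy2 hxt1 hxt2 hyu1 hyu2 he hid
  have hβ2 : 0 < β ^ 2 := by positivity
  -- squares
  have pr : ∀ a b c : ℝ, c ≤ a → c ≤ b → 0 ≤ c → c ^ 2 ≤ a * b := by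
    intro a b c h1 h2 h3
    rw [sq]
    exact mul_le_mul h1 h2 h3 (h3.trans h1)
  have up : ∀ a b : ℝ, 0 ≤ a → a ≤ 1 → 0 ≤ b → b ≤ 1 → a * b ≤ 1 := by
    intro a b h1 h2 h3 h4
    exact mul_le_one₀ h2 h3 h4
  have ey : β ^ 2 ≤ y ^ 2 := by
    have := pr (-y) (-y) β (by linarith) (by linarith) hβ.le
    linarith
  have eyu : β ^ 2 ≤ (y + u) ^ 2 := by
    have := pr (-(y + u)) (-(y + u)) β (by linarith) (by linarith) hβ.le
    linarith
  have eyy : β ^ 2 ≤ y * (y + u) := by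
    have := pr (-y) (-(y + u)) β (by linarith) (by linarith) hβ.le
    linarith
  have hx2' : x ^ 2 ≤ 1 := by
    have := up (-x) (-x) (by linarith) (by linarith) (by linarith) (by linarith)
    linarith
  have hxt2' : (x + t) ^ 2 ≤ 1 := by
    have := up (-(x + t)) (-(x + t)) (by linarith) (by linarith) (by linarith) (by linarith)
    linarith
  have hxx' : x * (x + t) ≤ 1 := by
    have := up (-x) (-(x + t)) (by linarith) (by linarith) (by linarith) (by linarith)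
    linarith
  have hxx0 : 0 ≤ x * (x + t) := by
    have := mul_nonneg (show (0 : ℝ) ≤ -x by linarith) (show (0 : ℝ) ≤ -(x + t) by linarith)
    linarith
  have hq2 : |x ^ 2 + x * (x + t) + (x + t) ^ 2| ≤ 3 := by
    rw [abs_le]
    constructor <;> linarith [sq_nonneg x, sq_nonneg (x + t)]
  have hq1 : 3 * β ^ 2 ≤ y ^ 2 + y * (y + u) + (y + u) ^ 2 := by linarith
  have hmain : u * (y ^ 2 + y * (y + u) + (y + u) ^ 2) =
      e - t * (x ^ 2 + x * (x + t) + (x + t) ^ 2) := by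
    linear_combination hid
  have h1 : |u| * (3 * β ^ 2) ≤ |e| + |t| * 3 := by
    have h2 : |u| * (3 * β ^ 2) ≤ |u| * (y ^ 2 + y * (y + u) + (y + u) ^ 2) :=
      mul_le_mul_of_nonneg_left hq1 (abs_nonneg u)
    have h3 : |u| * (y ^ 2 + y * (y + u) + (y + u) ^ 2) =
        |e - t * (x ^ 2 + x * (x + t) + (x + t) ^ 2)| := by
      rw [← hmain, abs_mul, abs_of_nonneg (by linarith : (0 : ℝ) ≤
        y ^ 2 + y * (y + u) + (y + u) ^ 2)]
    have h4 : |e - t * (x ^ 2 + x * (x + t) + (x + t) ^ 2)| ≤ |e| + |t| * 3 := by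
      refine (abs_sub _ _).trans ?_
      rw [abs_mul]
      have := mul_le_mul_of_nonneg_left hq2 (abs_nonneg t)
      linarith
    linarith
  have hu : |u| ≤ (|t| + |e|) / β ^ 2 := by
    rw [le_div_iff₀ hβ2]
    have h0 : |u| * (3 * β ^ 2) = 3 * (|u| * β ^ 2) := by ring
    linarith [abs_nonneg e]
  refine ⟨hu, ?_⟩
  have ht1 : |t| ≤ 1 := by
    rw [abs_le]; constructor <;> linarith
  have hu1 : |u| ≤ 1 := by
    rw [abs_le]; constructor <;> linarith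
  have hy0 : y ^ 2 ≠ 0 := by
    have : 0 < y ^ 2 := lt_of_lt_of_le hβ2 ey
    exact this.ne'
  have hyn : y ≠ 0 := by
    intro h0
    rw [h0] at hy2
    linarith
  have hv : 3 * y ^ 2 * (u + x ^ 2 / y ^ 2 * t) =
      e - 3 * x * t ^ 2 - t ^ 3 - 3 * y * u ^ 2 - u ^ 3 := by
    have : 3 * y ^ 2 * (u + x ^ 2 / y ^ 2 * t) = 3 * y ^ 2 * u + 3 * x ^ 2 * t := by
      field_simp
    rw [this]
    linear_combination hid
  have ht2 : |t| ^ 2 = t ^ 2 := sq_abs t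
  have hu2 : |u| ^ 2 = u ^ 2 := sq_abs u
  have ht3 : |t ^ 3| ≤ t ^ 2 := by
    rw [abs_pow, ← ht2]
    nlinarith [abs_nonneg t, sq_nonneg |t|]
  have hu3 : |u ^ 3| ≤ u ^ 2 := by
    rw [abs_pow, ← hu2]
    nlinarith [abs_nonneg u, sq_nonneg |u|]
  have hvabs : |3 * y ^ 2 * (u + x ^ 2 / y ^ 2 * t)| ≤ |e| + 4 * t ^ 2 + 4 * u ^ 2 := by
    rw [hv, abs_le]
    have e1 := abs_le.1 (le_refl |e|)
    have e2 := abs_le.1 ht3
    have e3 := abs_le.1 hu3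
    have f1 : 0 ≤ (1 + x) * t ^ 2 := mul_nonneg (by linarith) (sq_nonneg t)
    have f2 : 0 ≤ (-x) * t ^ 2 := mul_nonneg (by linarith) (sq_nonneg t)
    have f3 : 0 ≤ (1 + y) * u ^ 2 := mul_nonneg (by linarith) (sq_nonneg u)
    have f4 : 0 ≤ (-y) * u ^ 2 := mul_nonneg (by linarith) (sq_nonneg u)
    have f5 := sq_nonneg t
    have f6 := sq_nonneg u
    constructor <;> linarith [e1.1, e1.2, e2.1, e2.2, e3.1, e3.2]
  have hvabs2 : 3 * β ^ 2 * |u + x ^ 2 / y ^ 2 * t| ≤ |e| + 4 * t ^ 2 + 4 * u ^ 2 := by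
    refine le_trans ?_ hvabs
    rw [abs_mul, abs_of_nonneg (by positivity : (0 : ℝ) ≤ 3 * y ^ 2)]
    have h0 := mul_nonneg (sub_nonneg.2 ey) (abs_nonneg (u + x ^ 2 / y ^ 2 * t))
    linarith
  have husq : u ^ 2 * β ^ 4 ≤ 2 * (t ^ 2 + |e|) := by
    have h5 : |u| * β ^ 2 ≤ |t| + |e| := by
      rwa [le_div_iff₀ hβ2] at hu
    have h6 : (|u| * β ^ 2) ^ 2 ≤ (|t| + |e|) ^ 2 :=
      pow_le_pow_left₀ (by positivity) h5 2
    have h7 : |e| ^ 2 ≤ |e| := by nlinarith [abs_nonneg e]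
    have h8 : (|u| * β ^ 2) ^ 2 = u ^ 2 * β ^ 4 := by
      rw [mul_pow, hu2]; ring
    rw [h8] at h6
    have h9 : (|t| + |e|) ^ 2 ≤ 2 * (|t| ^ 2 + |e| ^ 2) := by
      nlinarith [sq_nonneg (|t| - |e|)]
    rw [ht2] at h9
    linarith
  have hβ4 : β ^ 4 ≤ 1 := pow_le_one₀ hβ.le hβ1
  have hβ4' : 0 < β ^ 4 := by positivity
  rw [le_div_iff₀ (by positivity)]
  have e0 := abs_nonneg e
  have h9 : 3 * (|u + x ^ 2 / y ^ 2 * t| * β ^ 6) ≤
      (|e| + 4 * t ^ 2 + 4 * u ^ 2) * β ^ 4 := by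
    have := mul_le_mul_of_nonneg_right hvabs2 hβ4'.le
    calc 3 * (|u + x ^ 2 / y ^ 2 * t| * β ^ 6)
        = 3 * β ^ 2 * |u + x ^ 2 / y ^ 2 * t| * β ^ 4 := by ring
      _ ≤ _ := this
  have h10 : (|e| + 4 * t ^ 2) * β ^ 4 ≤ |e| + 4 * t ^ 2 := by
    have : 0 ≤ |e| + 4 * t ^ 2 := by positivity
    have h0 := mul_nonneg this (sub_nonneg.2 hβ4)
    linarith
  have h11 : (|e| + 4 * t ^ 2 + 4 * u ^ 2) * β ^ 4 =
      (|e| + 4 * t ^ 2) * β ^ 4 + 4 * (u ^ 2 * β ^ 4) := by ring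
  linarith [sq_nonneg t]

end Pool.Agent.Helper72.PW
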